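import Mathlib
import Pool.Agent.Helper10.UC.Defs
import Pool.Agent.Helper10.UC.Fin

open Topology
open Pool.Agent.Helper10.UC

namespace Pool.Agent.Results.MP_14c953_ag.NotADomain

universe u v

/-- Negative answer to Q2: there is a compact algebraic surface `M` (a smooth connected projective
surface) with infinite fundamental group and without rational curves such that, for every universal
covering `p : E → M`, the space `E` is not homeomorphic to an open subset of any compact
Hausdorff topological manifold `N`. -/
theorem result : ∃ (ι : Type) (_ : Fintype ι) (M : Set (PP ι)),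
    IsCompactAlgebraicManifold M 2 ∧ (∀ x : M, Infinite (FundamentalGroup M x)) ∧
    NoRationalCurve M ∧
    ∀ (E : Type u) [TopologicalSpace E] [SimplyConnectedSpace E] (p : E → M), IsCoveringMap p →
      ∀ (k : ℕ) (N : Type v) [TopologicalSpace N] [CompactSpace N] [T2Space N]
        [ChartedSpace (EuclideanSpace ℝ (Fin k)) N] (f : E → N), ¬ IsOpenEmbedding f :=
  ⟨Ix, inferInstance, MM,
    ⟨⟨eqsM, eqsM_homog, rfl⟩, pathM.isConnected, smoothM⟩, infinite_piM, noRat,
    fun _ _ _ _ hp k _ _ _ _ _ f => no_embedding (k := k) hp f⟩

end Pool.Agent.Results.MP_14c953_ag.NotADomain
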